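import Pool.Agent.W247.ET.All

/-!
# MP_12a1af_nt: every asymptotic basis of order 2 has infinitely many integers with 8 representations

`rep A n` is the number `r_A(n)` of ordered pairs `(a, b) ∈ A × A` with `a + b = n`.

1. If `r_A(n) ≥ 1` for all large `n`, then `r_A(n) ≥ 8` for infinitely many `n`.
2. Uniform quantitative form: for every `K` there are `δ > 0` and `C` such that for every set `A`
   of natural numbers with `r_A ≤ K` and every `N ≥ 1` the sum of `1 / n` over all `n ≤ N` with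
   `r_A(n) = 0` or `r_A(n) ≥ 8` is at least `δ log N - C`.
3. Hence for every asymptotic basis `A` either `r_A` is unbounded or the set of all `n` with
   `r_A(n) ≥ 8` has positive lower logarithmic density.

Method.  Let `f(x + iy) = ∑ exp(i a (x + i y))`, `a ∈ A`.  The real analytic field `|f|²` is
positive, its mean at height `y` is `∑ exp(-2 a y)`, and `f²` has the coefficients `r_A(n)`.
Two explicit second and third order differential expressions `F₁, F₂` in `|f|²` are chosen such that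
the integral of `F₁² + F₂²` over `x` and the scale depends only on the numbers `r_A(n)²`: the kernel
is exactly constant, `315 / (32 n)`.  Since the mean value of `F₂` is at least `37/8` times the mean
of `|f|²` (in a suitable sense), the local variance of `r_A` is on (logarithmic) average at least
`1369/1260` times the mean of `r_A`, up to a small term which measures how much the local mean of
`r_A` varies.  Numbers in `{2, 4, 6}` have variance at most `8 - 4 √3 = 1.0718` times their mean.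
-/

set_option autoImplicit false

open Finset

namespace Pool.Agent.Results.MP_12a1af_nt.EightRepresentations

/-- `r_A(n)`: the number of ordered pairs of elements of `A` with sum `n` -/
noncomputable def rep (A : Set ℕ) (n : ℕ) : ℕ :=
  {p : ℕ × ℕ | p.1 ∈ A ∧ p.2 ∈ A ∧ p.1 + p.2 = n}.ncard

open Classical in
/-- **Main theorem.** (1) If `r_A(n) ≥ 1` for all large `n`, then `r_A(n) ≥ 8` for infinitely many
`n`. (2) For every `K` there are `δ > 0` and `C` such that every set `A` with `r_A(n) ≤ K` for all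
`n` satisfies `∑_{n ≤ N, r_A(n) = 0 or r_A(n) ≥ 8} 1/n ≥ δ log N - C` for all `N ≥ 1`.
(3) If `r_A(n) ≥ 1` for all large `n` and `r_A` is bounded, then
`∑_{n ≤ N, r_A(n) ≥ 8} 1/n ≥ δ log N` for some `δ > 0` and all large `N`. -/
theorem result :
    (∀ A : Set ℕ, (∃ n₀, ∀ n ≥ n₀, 1 ≤ rep A n) → ∀ n₁, ∃ n ≥ n₁, 8 ≤ rep A n) ∧
    (∀ K : ℕ, ∃ δ : ℝ, 0 < δ ∧ ∃ C : ℝ, ∀ A : Set ℕ, (∀ n, rep A n ≤ K) → ∀ N : ℕ, 1 ≤ N →
      δ * Real.log N - C ≤
        ∑ n ∈ (Icc 1 N).filter (fun n => rep A n = 0 ∨ 8 ≤ rep A n), 1 / (n : ℝ)) ∧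
    (∀ A : Set ℕ, (∃ n₀, ∀ n ≥ n₀, 1 ≤ rep A n) → (∃ K, ∀ n, rep A n ≤ K) →
      ∃ δ : ℝ, 0 < δ ∧ ∃ N₀ : ℕ, ∀ N ≥ N₀,
        δ * Real.log N ≤ ∑ n ∈ (Icc 1 N).filter (fun n => 8 ≤ rep A n), 1 / (n : ℝ)) := by
  have hmain : Pool.Agent.W247.ET.Main_stmt := Pool.Agent.W247.ET.main
  refine ⟨Pool.Agent.W247.ET.basis_of_main hmain, hmain, ?_⟩
  rintro A ⟨n₀, h0⟩ ⟨K, hK⟩
  obtain ⟨δ, hδ, C, hC⟩ := hmain K
  have hC := hC A hK
  have hlim : Filter.Tendsto (fun N : ℕ => δ / 2 * Real.log N) Filter.atTop Filter.atTop :=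
    (Real.tendsto_log_atTop.comp tendsto_natCast_atTop_atTop).const_mul_atTop (by positivity)
  obtain ⟨N₀, hN₀⟩ := Filter.eventually_atTop.1
    ((hlim.eventually_ge_atTop (C + n₀)).and (Filter.eventually_ge_atTop 1))
  refine ⟨δ / 2, by positivity, N₀, fun N hN => ?_⟩
  obtain ⟨h1, h2⟩ := hN₀ N hN
  have h3 : δ * Real.log N - C ≤
      ∑ n ∈ (Icc 1 N).filter (fun n => rep A n = 0 ∨ 8 ≤ rep A n), 1 / (n : ℝ) := hC N h2
  have h4 : ∑ n ∈ (Icc 1 N).filter (fun n => rep A n = 0 ∨ 8 ≤ rep A n), 1 / (n : ℝ) ≤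
      ∑ n ∈ (Icc 1 N).filter (fun n => 8 ≤ rep A n), 1 / (n : ℝ) + n₀ := by
    have hsub : (Icc 1 N).filter (fun n => rep A n = 0 ∨ 8 ≤ rep A n) ⊆
        (Icc 1 N).filter (fun n => 8 ≤ rep A n) ∪ Icc 1 n₀ := by
      intro n hn
      rw [mem_filter, mem_Icc] at hn
      rw [mem_union, mem_filter, mem_Icc, mem_Icc]
      rcases hn.2 with h | h
      · right
        refine ⟨hn.1.1, ?_⟩
        by_contra h5
        push Not at h5
        have := h0 n h5.le
        omega
      · exact Or.inl ⟨hn.1, h⟩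
    calc ∑ n ∈ (Icc 1 N).filter (fun n => rep A n = 0 ∨ 8 ≤ rep A n), 1 / (n : ℝ)
        ≤ ∑ n ∈ (Icc 1 N).filter (fun n => 8 ≤ rep A n) ∪ Icc 1 n₀, 1 / (n : ℝ) :=
          sum_le_sum_of_subset_of_nonneg hsub fun _ _ _ => by positivity
      _ ≤ ∑ n ∈ (Icc 1 N).filter (fun n => 8 ≤ rep A n), 1 / (n : ℝ) +
            ∑ n ∈ Icc 1 n₀, 1 / (n : ℝ) := by
          rw [← sum_union_inter]
          exact le_add_of_nonneg_right (sum_nonneg fun _ _ => by positivity)
      _ ≤ ∑ n ∈ (Icc 1 N).filter (fun n => 8 ≤ rep A n), 1 / (n : ℝ) + n₀ := by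
          gcongr
          calc ∑ n ∈ Icc 1 n₀, 1 / (n : ℝ) ≤ ∑ n ∈ Icc 1 n₀, (1 : ℝ) := by
                refine sum_le_sum fun n hn => ?_
                have : (1 : ℝ) ≤ n := by exact_mod_cast (mem_Icc.1 hn).1
                rw [div_le_one (by linarith)]
                exact this
            _ = n₀ := by simp
  linarith

end Pool.Agent.Results.MP_12a1af_nt.EightRepresentations
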