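import Pool.Agent.W227.FC.Growth

/-!
# MP_12a1af_nt: sets of low factor complexity

Let `p_A(L)` be the factor complexity of the characteristic sequence `1_A(0) 1_A(1) 1_A(2) ...`:
the number of its different factors (blocks of consecutive terms) of length `L`.

1. Let `r_A ≤ K + 1`, let `B ⊆ A` have at least `N ^ α` elements below `N` for arbitrarily large
   `N`, and let `γ ≥ 1` satisfy `γ ^ K (1 - α) < 1`.  Then `p_B(L) > L ^ γ` for infinitely many `L`.
2. Hence, if `a_n ≤ C n ^ 2` for all `n ≥ 1` and `r_A ≤ K + 1`, then `p_A(L) > L ^ γ` for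
   infinitely many `L`, for every `γ < 2 ^ (1 / K)`.
3. So Q1 and Q2 hold for all sets `A` with `p_A(L) ≤ L ^ (1 + o(1))`.

Method.  If a word `w` of length `≍ n` has many occurrences and any two are at distance `≥ n`, then
for some `n' ≥ n / 2` many consecutive occurrences are at distance in `[n', 2 n')`.  There are many
windows of length `≍ n'` containing two such occurrences and few words of this length, so one of
these words, `w'`, has many occurrences; they are again at distance `≥ n'`.  So `A` contains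
Hilbert cubes of dimension `m`, and an `m`-dimensional cube gives `m + 1` representations.
-/

set_option autoImplicit false

open Filter

namespace Pool.Agent.Results.MP_12a1af_nt.FactorComplexity

/-- `r_A(n)`: the number of ordered pairs `(a, b) ∈ A × A` with `a + b = n`. -/
noncomputable def rep (A : Set ℕ) (n : ℕ) : ℕ :=
  {p : ℕ × ℕ | p.1 ∈ A ∧ p.2 ∈ A ∧ p.1 + p.2 = n}.ncard

/-- `elt A n` is the `n`-th element `a_n` (`n ≥ 1`) of the infinite set `A` listed increasingly. -/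
noncomputable def elt (A : Set ℕ) (n : ℕ) : ℕ := Nat.nth (· ∈ A) (n - 1)

/-- The factor complexity `p_A(L)`: the number of different subsets
`{i | 0 ≤ i < L, s + i ∈ A}` of `{0, ..., L - 1}`, for `s = 0, 1, 2, ...`. -/
noncomputable def complexity (A : Set ℕ) (L : ℕ) : ℕ :=
  (Set.range (fun s : ℕ => {i : Fin L | s + (i : ℕ) ∈ A})).ncard

theorem general (A B : Set ℕ) (K : ℕ) (α γ : ℝ) (hBA : B ⊆ A) (hK : ∀ n, rep A n ≤ K + 1)
    (hγ : 1 ≤ γ) (hm : γ ^ K * (1 - α) < 1)
    (hB : ∃ᶠ N : ℕ in atTop, (N : ℝ) ^ α ≤ (B ∩ Set.Iio N).ncard) :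
    ∃ᶠ L : ℕ in atTop, (L : ℝ) ^ γ < complexity B L := by
  by_contra hcon
  rw [not_frequently] at hcon
  have hp : ∀ᶠ L : ℕ in atTop, (Pool.Agent.W227.FC.complexity B L : ℝ) ≤ (L : ℝ) ^ γ := by
    filter_upwards [hcon] with L hL
    exact not_lt.1 hL
  obtain ⟨a, l, hl, hpos, hc⟩ := Pool.Agent.W227.FC.cube_of_complexity hγ hp hB K hm
  obtain ⟨n, hn⟩ := Pool.Agent.W227.FC.rep_pairs hl hpos
    (Pool.Agent.W227.FC.cubeSet_mono hBA l hc)
  have := hK n
  unfold rep at this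
  omega

theorem result :
    (∀ (A B : Set ℕ) (K : ℕ) (α γ : ℝ), B ⊆ A → (∀ n, rep A n ≤ K + 1) →
      1 ≤ γ → γ ^ K * (1 - α) < 1 →
      (∃ᶠ N : ℕ in atTop, (N : ℝ) ^ α ≤ (B ∩ Set.Iio N).ncard) →
      ∃ᶠ L : ℕ in atTop, (L : ℝ) ^ γ < complexity B L) ∧
    (∀ (A : Set ℕ) (K : ℕ), A.Infinite →
      (∃ C : ℝ, ∀ n : ℕ, 1 ≤ n → (elt A n : ℝ) ≤ C * (n : ℝ) ^ 2) → (∀ n, rep A n ≤ K + 1) →
      ∀ γ : ℝ, 1 ≤ γ → γ ^ K < 2 → ∃ᶠ L : ℕ in atTop, (L : ℝ) ^ γ < complexity A L) ∧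
    (∀ A : Set ℕ,
      (∀ ε : ℝ, 0 < ε → ∀ᶠ L : ℕ in atTop, (complexity A L : ℝ) ≤ (L : ℝ) ^ (1 + ε)) →
      ((∀ᶠ n : ℕ in atTop, 1 ≤ rep A n) ∨
        (A.Infinite ∧ ∃ C : ℝ, ∀ n : ℕ, 1 ≤ n → (elt A n : ℝ) ≤ C * (n : ℝ) ^ 2)) →
      ∀ K : ℕ, ∃ n, K < rep A n) := by
  refine ⟨general, ?_, ?_⟩
  · rintro A K hinf ⟨C, hC⟩ hK γ hγ hγ2
    -- choose `α < 1 / 2` with `γ ^ K (1 - α) < 1`
    have hpos : 0 < γ ^ K := by positivity
    have h1 : 1 - 1 / γ ^ K < 1 / 2 := by
      have : 1 / 2 < 1 / γ ^ K := by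
        rw [div_lt_div_iff₀ (by norm_num) hpos]
        linarith
      linarith
    obtain ⟨α, hα1, hα2⟩ := exists_between h1
    refine general A A K α γ (le_refl _) hK hγ ?_ (Pool.Agent.W227.FC.freq_of_elt hinf hC hα2)
    have h2 : 1 - α < 1 / γ ^ K := by linarith
    rw [lt_div_iff₀ hpos] at h2
    linarith
  · intro A hA hgr K
    by_contra hcon
    push Not at hcon
    have hfreq : ∃ᶠ N : ℕ in atTop, (N : ℝ) ^ (1 / 4 : ℝ) ≤ (A ∩ Set.Iio N).ncard := by
      rcases hgr with h | ⟨hinf, C, hC⟩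
      · refine Pool.Agent.W227.FC.freq_of_basis (h := 2) (by norm_num) ?_ (by norm_num)
        filter_upwards [h] with n hn
        have h2 : {p : ℕ × ℕ | p.1 ∈ A ∧ p.2 ∈ A ∧ p.1 + p.2 = n}.Nonempty := by
          by_contra h3
          rw [Set.not_nonempty_iff_eq_empty] at h3
          unfold rep at hn
          rw [h3, Set.ncard_empty] at hn
          omega
        obtain ⟨p, h3, h4, h5⟩ := h2
        refine ⟨![p.1, p.2], ?_, ?_⟩
        · intro i
          fin_cases i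
          · exact h3
          · exact h4
        · rw [Fin.sum_univ_two]
          exact h5
      · exact Pool.Agent.W227.FC.freq_of_elt hinf hC (by norm_num)
    obtain ⟨ε, hε, hm⟩ := Pool.Agent.W227.FC.exists_gamma (α := 1 / 4) (by norm_num) K
    have h1 := general A A K (1 / 4) (1 + ε) (le_refl _) (fun n => le_trans (hcon n) (by omega))
      (by linarith) hm hfreq
    obtain ⟨L, hL1, hL2⟩ := (h1.and_eventually (hA ε hε)).exists
    linarith

end Pool.Agent.Results.MP_12a1af_nt.FactorComplexity
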