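import Pool.Agent.W305.ET.Circ2

/-!
# MP_12a1af_nt: sets with bounded representation function and computations with sets

A computation of length `S` is a sequence of `S` finite sets of integers, each of which is a
singleton or the union, the sum set or the difference set of two earlier ones.  Neither the unions
need be disjoint nor the sums direct.

If `r_A ≤ r`, then every subset of `A` obtained by a computation of length `S` has at most
`(4 S r²) ^ (4 log₂ r)` elements (`subset_card_le`).  Hence, if moreover `a_n ≤ C n ^ 2`, then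
`A ∩ [0, N]` is not covered by `K` subsets of `A` obtained by computations of length `S` as soon as
`N ≥ C (K (4 S r²) ^ (4 log₂ r) + 1) ^ 2`.  So the conjectures of Erdos and Turan (Q2, hence Q1)
hold for all sets `A` for which, for some `ε > 0`, every `δ > 0` and infinitely many `N`, the set
`A ∩ [0, N]` is covered by at most `N ^ (1/2 - ε)` subsets of `A` with computations of length at
most `N ^ δ`.

Method.  Let `D(F)` be the largest `d` such that `F` contains a symmetric set `X = M - X` with
`2 ^ d` elements.  Follow an element of the last set `F_i` down the computation as long as the sets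
`F_u` have the same `D`.  The translates and reflections of `F_u` inside `F_i` are few, since two
of them at a generic distance would give `D(F_i) > D(F_u)`.  At a sum `F_j + F_k` where both
summands have smaller `D`, the values of `D` add up to at most `D(F_i)`; for this one has to
work with symmetric sets whose differences avoid a given finite set.
-/

namespace Pool.Agent.Results.MP_12a1af_nt.SetCircuits

open Finset Pointwise Pool.Agent.W305.ET

/-- if no number has more than `r` ordered representations by `A`, then a symmetric finite subset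
of `A` has at most `r` elements -/
lemma card_le_of_rep {A : Set ℕ} {r : ℕ}
    (hr : ∀ n, {p : ℕ × ℕ | p.1 ∈ A ∧ p.2 ∈ A ∧ p.1 + p.2 = n}.ncard ≤ r)
    {X : Finset ℤ} (hX : ∀ x ∈ X, ∃ a ∈ A, (a : ℤ) = x) {M : ℤ} (hM : ∀ x ∈ X, M - x ∈ X) :
    X.card ≤ r := by
  have hfin : ({p : ℕ × ℕ | p.1 ∈ A ∧ p.2 ∈ A ∧ p.1 + p.2 = M.toNat}).Finite := by
    apply Set.Finite.subset (Finset.finite_toSet
      (Finset.range (M.toNat + 1) ×ˢ Finset.range (M.toNat + 1)))
    rintro p ⟨_, _, hp⟩
    rw [Finset.mem_coe, Finset.mem_product, Finset.mem_range, Finset.mem_range]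
    omega
  refine le_trans ?_ (hr M.toNat)
  rw [← Set.ncard_coe_finset]
  refine Set.ncard_le_ncard_of_injOn (fun x : ℤ => (x.toNat, (M - x).toNat)) ?_ ?_ hfin
  · intro x hx
    rw [Finset.mem_coe] at hx
    obtain ⟨a, ha, hax⟩ := hX x hx
    obtain ⟨b, hb, hbx⟩ := hX _ (hM x hx)
    have h1 : x.toNat = a := by omega
    have h2 : (M - x).toNat = b := by omega
    have h3 : M.toNat = a + b := by omega
    show x.toNat ∈ A ∧ (M - x).toNat ∈ A ∧ x.toNat + (M - x).toNat = M.toNat
    rw [h1, h2, h3]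
    exact ⟨ha, hb, rfl⟩
  · intro x hx y hy hxy
    rw [Finset.mem_coe] at hx hy
    obtain ⟨a, ha, hax⟩ := hX x hx
    obtain ⟨b, hb, hby⟩ := hX y hy
    simp only [Prod.mk.injEq] at hxy
    omega

/-- `G` is one of the sets of a computation of length `S`. -/
def ComputedIn (S : ℕ) (G : Finset ℤ) : Prop :=
  ∃ F : ℕ → Finset ℤ, (∀ i < S, (∃ c : ℤ, F i = {c}) ∨
    ∃ j < i, ∃ k < i, F i = F j ∪ F k ∨ F i = F j + F k ∨ F i = F j - F k) ∧
    ∃ i < S, F i = G

/-- A subset of `A` obtained by a computation of length `S` has at most `(4 S r²) ^ (4 log₂ r)`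
elements, if `r_A ≤ r`. -/
theorem subset_card_le {A : Set ℕ} {r : ℕ}
    (hr : ∀ n, {p : ℕ × ℕ | p.1 ∈ A ∧ p.2 ∈ A ∧ p.1 + p.2 = n}.ncard ≤ r)
    {S : ℕ} {G : Finset ℤ} (hG : ComputedIn S G) (hGA : ∀ x ∈ G, ∃ a ∈ A, (a : ℤ) = x) :
    G.card ≤ (4 * S * r ^ 2) ^ (4 * Nat.log 2 r) := by
  obtain ⟨F, hF, i, hi, rfl⟩ := hG
  have hF' : IsComp S F := hF
  have hr1 : 1 ≤ r := by
    obtain ⟨x, hx⟩ := hF'.nonempty i hi
    have := card_le_of_rep hr (X := {x}) (M := x + x)
      (by intro y hy; rw [Finset.mem_singleton] at hy; subst hy; exact hGA _ hx)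
      (by intro y hy; rw [Finset.mem_singleton] at hy ⊢; omega)
    simpa using this
  have key : ∀ d, r < 2 ^ d → ¬ Sym {0} (F i) d := by
    rintro d hd ⟨X, hX, ⟨M, hM⟩, hc, _⟩
    have := card_le_of_rep hr (X := X) (fun x hx => hGA x (hX hx)) hM
    omega
  set d := Nat.log 2 r with hd
  have h1 : r < 2 ^ (d + 1) := Nat.lt_pow_succ_log_self (by norm_num) r
  rcases Nat.eq_zero_or_pos d with h0 | hpos
  · rw [h0, mul_zero, pow_zero, Finset.card_le_one]
    intro x hx y hy
    by_contra hxy
    rw [h0] at h1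
    refine key 1 h1 (sym_one hx hy hxy ?_ ?_)
    · rw [Finset.mem_singleton]; omega
    · rw [Finset.mem_singleton]; omega
  · have h2 := card_le_sym hF' d i hi (key _ h1)
    have h3 : 4 ^ d ≤ r ^ 2 := by
      have h4 : 2 ^ d ≤ r := Nat.pow_log_le_self 2 (by omega)
      calc 4 ^ d = (2 ^ d) ^ 2 := by rw [← pow_mul, mul_comm, pow_mul]; norm_num
        _ ≤ r ^ 2 := Nat.pow_le_pow_left h4 2
    have h5 : ex d ≤ 4 * d := by
      obtain ⟨e, he⟩ : ∃ e, d = e + 1 := ⟨d - 1, by omega⟩
      rw [he]; simp only [ex]; omega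
    calc (F i).card ≤ (4 * S * 4 ^ d) ^ ex d := h2
      _ ≤ (4 * S * r ^ 2) ^ ex d := Nat.pow_le_pow_left (Nat.mul_le_mul_left _ h3) _
      _ ≤ (4 * S * r ^ 2) ^ (4 * d) := by
        apply Nat.pow_le_pow_right _ h5
        have : 1 ≤ r ^ 2 := Nat.one_le_pow _ _ (by omega)
        have h6 : 1 ≤ S := by omega
        nlinarith [Nat.mul_le_mul h6 this]

/-- **The Erdos-Turan conjecture and computations with sets.**  Let `A` be an infinite set of
natural numbers with `a_n ≤ C n²` for all `n ≥ 1` and `r_A ≤ r`.  If the elements of `A` up to `N`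
lie in the union of `K` subsets of `A`, each of which is obtained from single integers by `S` steps
(unions, sum sets and difference sets of earlier sets), then
`N < C (K (4 S r²) ^ (4 log₂ r) + 1)²`. -/
theorem result (A : Set ℕ) (C r : ℕ) (hA : A.Infinite)
    (hC : ∀ n, 1 ≤ n → Nat.nth (· ∈ A) (n - 1) ≤ C * n ^ 2)
    (hr : ∀ n, {p : ℕ × ℕ | p.1 ∈ A ∧ p.2 ∈ A ∧ p.1 + p.2 = n}.ncard ≤ r)
    (N K S : ℕ) (G : Fin K → Finset ℤ) (hG : ∀ k, ComputedIn S (G k))
    (hGA : ∀ k, ∀ x ∈ G k, ∃ a ∈ A, (a : ℤ) = x)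
    (hcov : ∀ a ∈ A, a ≤ N → ∃ k, (a : ℤ) ∈ G k) :
    N < C * (K * (4 * S * r ^ 2) ^ (4 * Nat.log 2 r) + 1) ^ 2 := by
  by_contra hN
  rw [not_lt] at hN
  set B := (4 * S * r ^ 2) ^ (4 * Nat.log 2 r) with hB
  set n := K * B + 1 with hn
  have hinf : {x | x ∈ A}.Infinite := hA
  -- the first `n` elements of `A` lie in the union
  have h1 : ((Finset.range n).image (fun i => ((Nat.nth (· ∈ A) i : ℕ) : ℤ))) ⊆
      (Finset.univ : Finset (Fin K)).biUnion G := by
    intro x hx
    rw [Finset.mem_image] at hx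
    obtain ⟨i, hi, rfl⟩ := hx
    rw [Finset.mem_range] at hi
    have h2 : Nat.nth (· ∈ A) i ≤ Nat.nth (· ∈ A) (n - 1) :=
      (Nat.nth_strictMono hinf).monotone (by omega)
    obtain ⟨k, hk⟩ := hcov _ (Nat.nth_mem_of_infinite hinf i)
      (le_trans h2 (le_trans (hC n (by omega)) hN))
    rw [Finset.mem_biUnion]
    exact ⟨k, Finset.mem_univ k, hk⟩
  have h3 := Finset.card_le_card h1
  rw [Finset.card_image_of_injective _
    (fun i j hij => Nat.nth_injective hinf (by exact_mod_cast hij)), Finset.card_range] at h3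
  have h4 : ((Finset.univ : Finset (Fin K)).biUnion G).card ≤ K * B := by
    refine le_trans Finset.card_biUnion_le ?_
    refine le_trans (Finset.sum_le_card_nsmul _ _ B ?_) ?_
    · intro k _
      exact subset_card_le hr (hG k) (hGA k)
    · simp
  omega

end Pool.Agent.Results.MP_12a1af_nt.SetCircuits
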