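import Pool.Agent.W167.ET.Uniform
import Pool.Agent.W167.ET.Bounded

/-!
# MP_12a1af_nt: arbitrarily slow random perturbations

Let `a_n ≤ C (n + 1) ^ 2` (for instance the increasing enumeration of a set satisfying the
hypothesis of Q2, or of an asymptotic basis of order 2) and let `w_n ≤ C (n + 1) ^ 2` be
nondecreasing and unbounded, growing as slowly as we like.

1. If `ε_n` are independent random integers in `[0, w_n]` with `P(ε_n = j) ≤ B / (w_n + 1)`, then
   almost surely the set `{a_n + ε_n}` has unbounded representation function.  So the strong form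
   (Q2) of the conjecture, hence also Q1, holds almost surely after a random perturbation of
   amplitude tending to infinity arbitrarily slowly.
2. In particular this holds for almost every choice of shifts in `∏ {0, …, w_n}`.
3. The condition `w_n → ∞` is sharp: for *every* choice of bounded shifts `0 ≤ x_n ≤ w` the
   representation function of `{a_n + x_n}` is bounded if and only if that of `{a_n}` is.

Method (`Pool.Agent.W167.ET`).  Consider blocks `[N, 3N)` on which `w` changes at most by a constant
factor `ρ`; put `W = w_N`.  By the pigeonhole principle there are `≥ κ W` pairs from two disjoint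
halves of the block whose sums lie in an interval of length `W`.  If `≥ η W` elements of the block
lie in an interval of length `O(W)`, the shifted elements have `≫ W` different values there and
some integer has `≫ W` representations.  Otherwise one half of the pairs is frozen; the other
elements hit suitable targets independently with a total intensity bounded below, and coincidences
are rare; so `K` different representations of the same integer appear with a probability which
depends only on `K`, `C`, `B`.  The blocks are independent.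
-/

set_option autoImplicit false

open MeasureTheory ProbabilityTheory

namespace Pool.Agent.Results.MP_12a1af_nt.SlowPerturbations

/-- `rep A n` is the number of ordered pairs of elements of `A` with sum `n`. -/
noncomputable def rep (A : Set ℕ) (n : ℕ) : ℕ :=
  Set.ncard {p : ℕ × ℕ | p.1 ∈ A ∧ p.2 ∈ A ∧ p.1 + p.2 = n}

/-- The product of the uniform probability measures on `{0, …, w n}`. -/
noncomputable def unif (w : ℕ → ℕ) : Measure (∀ n, Fin (w n + 1)) :=
  Measure.infinitePi fun n => (PMF.uniformOfFintype (Fin (w n + 1))).toMeasure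

theorem slow {Ω : Type*} [MeasurableSpace Ω] (μ : Measure Ω) (ε : ℕ → Ω → ℕ) (B : ℝ)
    (a w : ℕ → ℕ) (C : ℕ) (ha : ∀ n, a n ≤ C * (n + 1) ^ 2) (hw : Monotone w)
    (hw' : ∀ b, ∃ n, b ≤ w n) (hwC : ∀ n, w n ≤ C * (n + 1) ^ 2)
    (hP : Pool.Agent.W167.ET.Pert μ w B ε) :
    ∀ᵐ ω ∂μ, ∀ K, ∃ m, K ≤ rep (Set.range fun n => a n + ε n ω) m := by
  filter_upwards [Pool.Agent.W167.ET.slow (a := a) hP 2 C le_rfl ha hw hw' hwC] with ω hω K
  obtain ⟨m, hm⟩ := hω K
  exact ⟨m, hm.trans (Pool.Agent.W167.ET.r_le_rep _ m)⟩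

theorem result :
    (∀ (a w : ℕ → ℕ) (C : ℕ), (∀ n, a n ≤ C * (n + 1) ^ 2) →
      Monotone w → (∀ b, ∃ n, b ≤ w n) → (∀ n, w n ≤ C * (n + 1) ^ 2) →
      (∀ (Ω : Type) (_ : MeasurableSpace Ω) (μ : Measure Ω) (ε : ℕ → Ω → ℕ) (B : ℝ),
        iIndepFun ε μ → (∀ n, Measurable (ε n)) → (∀ n ω, ε n ω ≤ w n) →
        (∀ n j, μ.real {ω | ε n ω = j} ≤ B / (w n + 1)) →
        ∀ᵐ ω ∂μ, ∀ K, ∃ m, K ≤ rep (Set.range fun n => a n + ε n ω) m) ∧
      (∀ᵐ x ∂(unif w), ∀ K, ∃ m, K ≤ rep (Set.range fun n => a n + (x n : ℕ)) m)) ∧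
    (∀ (a x : ℕ → ℕ) (w : ℕ), (∀ n, x n ≤ w) →
      ((∃ R, ∀ m, rep (Set.range a) m ≤ R) ↔
        (∃ R, ∀ m, rep (Set.range fun n => a n + x n) m ≤ R))) := by
  refine ⟨fun a w C ha hw hw' hwC => ⟨?_, ?_⟩, ?_⟩
  · intro Ω _ μ ε B h1 h2 h3 h4
    exact slow μ ε B a w C ha hw hw' hwC ⟨h1, h2, h3, h4⟩
  · exact slow _ _ 1 a w C ha hw hw' hwC (Pool.Agent.W167.ET.pert_unif w)
  · intro a x w hx
    have key : ∀ A : Set ℕ, (∃ R, ∀ m, rep A m ≤ R) ↔
        ∃ R, ∀ m, Pool.Agent.W167.ET.r A 2 m ≤ R := by
      intro A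
      constructor
      · rintro ⟨R, hR⟩
        exact ⟨R, fun m => (Pool.Agent.W167.ET.r_le_rep A m).trans (hR m)⟩
      · rintro ⟨R, hR⟩
        exact ⟨2 * R, fun m => (Pool.Agent.W167.ET.rep_le A m).trans
          (Nat.mul_le_mul_left _ (hR m))⟩
    rw [key, key]
    exact Pool.Agent.W167.ET.bounded_shift a x w 2 hx

end Pool.Agent.Results.MP_12a1af_nt.SlowPerturbations
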